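import Mathlib
import Pool.Agent.CSP3.N4Final
import Pool.Agent.CSP3.Two
import Pool.Agent.CSP3.Index
import Pool.Agent.CSP4.Main

set_option autoImplicit false

namespace Pool.Agent.Results.MP_181555_al.CommutingConjugations

open Pool.Agent.CSP3 Pool.Agent.CSP4
open scoped commutatorElement

/-- The automorphisms of the free group that act on `F / K` as an inner automorphism
(for a characteristic subgroup `K` this is the preimage in `Aut F` of the kernel of
`Out F → Out (F / K)`). -/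
def congr {n : ℕ} (K : Subgroup (FreeGroup (Fin n))) : Set (MulAut (FreeGroup (Fin n))) :=
  {ψ | ∃ g : FreeGroup (Fin n), ∀ x : FreeGroup (Fin n), ψ x * (g * x * g⁻¹)⁻¹ ∈ K}

/-- The Nielsen transvections `x_i ↦ x_i x_j`, `x_k ↦ x_k` for `k ≠ i`. -/
def IsTransvection {n : ℕ} (τ : MulAut (FreeGroup (Fin n))) : Prop :=
  ∃ i j : Fin n, i ≠ j ∧ τ (FreeGroup.of i) = FreeGroup.of i * FreeGroup.of j ∧
    ∀ k : Fin n, k ≠ i → τ (FreeGroup.of k) = FreeGroup.of k

/-- `κ` is the partial conjugation `x_i ↦ x_j x_i x_j⁻¹`, `x_k ↦ x_k` for `k ≠ i`. -/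
def IsPartialConj {n : ℕ} (i j : Fin n) (κ : MulAut (FreeGroup (Fin n))) : Prop :=
  κ (FreeGroup.of i) = FreeGroup.of j * FreeGroup.of i * (FreeGroup.of j)⁻¹ ∧
    ∀ k : Fin n, k ≠ i → κ (FreeGroup.of k) = FreeGroup.of k

theorem isTransvection_iff {n : ℕ} {τ : MulAut (FreeGroup (Fin n))} :
    IsTransvection τ ↔ ∃ i j : Fin n, i ≠ j ∧ τ = R i (x j) := by
  constructor
  · rintro ⟨i, j, hij, h1, h2⟩
    refine ⟨i, j, hij, A_ext fun k => ?_⟩
    by_cases hk : k = i
    · subst hk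
      rw [R_apply_self, kill_ne hij.symm]; exact h1
    · rw [R_apply_ne hk]; exact h2 k hk
  · rintro ⟨i, j, hij, rfl⟩
    refine ⟨i, j, hij, ?_, fun k hk => R_apply_ne hk _⟩
    have := R_apply_self i (x j)
    rwa [kill_ne hij.symm] at this

theorem isPartialConj_iff {n : ℕ} {i j : Fin n} (hij : i ≠ j) {κ : MulAut (FreeGroup (Fin n))} :
    IsPartialConj i j κ ↔ κ = (C i (x j))⁻¹ := by
  have e : (C i (x j))⁻¹ (x i) = x j * x i * (x j)⁻¹ := by
    rw [← map_inv, C_apply_self, map_inv, kill_ne hij.symm, inv_inv]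
  have e2 : ∀ k, k ≠ i → (C i (x j))⁻¹ (x k) = x k := fun k hk => by
    rw [← map_inv, C_apply_ne hk]
  constructor
  · rintro ⟨h1, h2⟩
    refine A_ext fun k => ?_
    by_cases hk : k = i
    · subst hk; rw [e]; exact h1
    · rw [e2 k hk]; exact h2 k hk
  · rintro rfl
    exact ⟨e, e2⟩

/-- a normal subgroup containing the `m`-th power of one transvection contains the `m`-th powers of
all transvections -/
theorem pow_mem_of_pow_mem {n m : ℕ} (N : Subgroup (MulAut (FreeGroup (Fin n)))) [N.Normal]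
    {τ : MulAut (FreeGroup (Fin n))} (hτ : IsTransvection τ) (h : τ ^ m ∈ N) (i j : Fin n)
    (hij : i ≠ j) : R i (x j) ^ m ∈ N := by
  obtain ⟨a, b, hab, rfl⟩ := isTransvection_iff.mp hτ
  obtain ⟨σ, h1, h2⟩ : ∃ σ : Equiv.Perm (Fin n), σ a = i ∧ σ b = j := by
    obtain ⟨σ, hσ⟩ : ∃ σ : Equiv.Perm (Fin n), σ a = i := ⟨Equiv.swap a i, Equiv.swap_apply_left a i⟩
    refine ⟨Equiv.swap (σ b) j * σ, ?_, ?_⟩
    · rw [Equiv.Perm.mul_apply, hσ]
      refine Equiv.swap_apply_of_ne_of_ne ?_ hij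
      rw [← hσ]
      exact fun h => hab (σ.injective h)
    · rw [Equiv.Perm.mul_apply, Equiv.swap_apply_left]
  have h3 := (inferInstance : N.Normal).conj_mem _ h (pm σ)
  rw [← conj_pow, pm_conj_R, pm_x, h1, h2] at h3
  exact h3

/-- the automorphisms trivial modulo a characteristic subgroup of finite index have finite index -/
theorem finiteIndex_of_congr {n : ℕ} (K : Subgroup (FreeGroup (Fin n))) (hK : K.Characteristic)
    (hf : K.FiniteIndex) (N : Subgroup (MulAut (FreeGroup (Fin n)))) (h : congr K ⊆ N) :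
    N.FiniteIndex := by
  have := hK
  have := hf
  have : K.Normal := inferInstance
  have : Finite (FreeGroup (Fin n) ⧸ K) := Subgroup.finite_quotient_of_finiteIndex
  have : Finite (MulAut (FreeGroup (Fin n) ⧸ K)) :=
    Finite.of_injective (fun φ => (φ : (FreeGroup (Fin n) ⧸ K) → (FreeGroup (Fin n) ⧸ K)))
      (fun a b h => MulEquiv.ext (congrFun h))
  -- the natural homomorphism to the automorphism group of the quotient
  have hmap : ∀ α : MulAut (FreeGroup (Fin n)), K.map (α : FreeGroup (Fin n) →* FreeGroup (Fin n)) = K :=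
    fun α => Subgroup.characteristic_iff_map_eq.mp hK α
  let f : MulAut (FreeGroup (Fin n)) → MulAut (FreeGroup (Fin n) ⧸ K) := fun α =>
    QuotientGroup.congr K K α (hmap α)
  have hf1 : ∀ α x, f α (QuotientGroup.mk x) = QuotientGroup.mk (α x) := fun α x => rfl
  let ρ : MulAut (FreeGroup (Fin n)) →* MulAut (FreeGroup (Fin n) ⧸ K) :=
    MonoidHom.mk' f (by
      intro a b
      ext y
      obtain ⟨x, rfl⟩ := QuotientGroup.mk_surjective y
      rfl)
  have : ρ.ker.FiniteIndex := Subgroup.finiteIndex_ker ρ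
  refine Subgroup.finiteIndex_of_le (H := ρ.ker) fun α hα => h ⟨1, fun x => ?_⟩
  have h1 : ρ α (QuotientGroup.mk x) = QuotientGroup.mk x := by
    rw [MonoidHom.mem_ker.mp hα]; rfl
  have h2 : (QuotientGroup.mk (α x) : FreeGroup (Fin n) ⧸ K) = QuotientGroup.mk x := h1
  rw [one_mul, inv_one, mul_one]
  rw [← QuotientGroup.eq_one_iff, QuotientGroup.mk_mul, QuotientGroup.mk_inv, h2, mul_inv_cancel]

/-- from automorphisms trivial modulo `K` to automorphisms inner modulo `K` -/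
theorem congr_subset {n : ℕ} (K : Subgroup (FreeGroup (Fin n))) (hK : K.Characteristic)
    (N : Subgroup (MulAut (FreeGroup (Fin n)))) (hI : ∀ g, MulAut.conj g ∈ N)
    (h : ∀ ψ : MulAut (FreeGroup (Fin n)), (∀ x, ψ x * x⁻¹ ∈ K) → ψ ∈ N) : congr K ⊆ N := by
  rintro ψ ⟨g, hg⟩
  have h1 : (MulAut.conj g)⁻¹ * ψ ∈ N := by
    refine h _ fun x => ?_
    have h2 : ((MulAut.conj g)⁻¹ * ψ) x * x⁻¹ = (MulAut.conj g)⁻¹ (ψ x * (g * x * g⁻¹)⁻¹) := by
      rw [MulAut.mul_apply, map_mul, map_inv]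
      congr 1
      rw [show g * x * g⁻¹ = MulAut.conj g x from rfl, MulAut.inv_apply_self]
    rw [h2]
    have h3 := Subgroup.characteristic_iff_map_le.mp hK (MulAut.conj g)⁻¹
    exact h3 ⟨_, hg x, rfl⟩
  have h4 : ψ = MulAut.conj g * ((MulAut.conj g)⁻¹ * ψ) := by group
  rw [h4]
  exact N.mul_mem (hI g) h1

/-- the hypothesis on the partial conjugations in terms of `C` -/
theorem comm_of {n : ℕ} (N : Subgroup (MulAut (FreeGroup (Fin n)))) [hN : N.Normal]
    {i j k : Fin n} (hij : i ≠ j) (hik : i ≠ k)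
    {κ lam : MulAut (FreeGroup (Fin n))} (h1 : IsPartialConj i j κ) (h2 : IsPartialConj i k lam)
    (h : ⁅κ, lam⁆ ∈ N) : C i ⁅x j, x k⁆ ∈ N := by
  rw [isPartialConj_iff hij] at h1
  rw [isPartialConj_iff hik] at h2
  subst h1; subst h2
  rw [C_comm_mem_iff]
  have h3 : ⁅QuotientGroup.mk' N (C i (x j))⁻¹, QuotientGroup.mk' N (C i (x k))⁻¹⁆ = 1 := by
    rw [← map_commutatorElement]; exact (QuotientGroup.eq_one_iff (N := N) _).mpr h
  have h4 : Commute (QuotientGroup.mk' N (C i (x j))) (QuotientGroup.mk' N (C i (x k))) := by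
    have := commutatorElement_eq_one_iff_commute.mp h3
    rw [map_inv, map_inv] at this
    exact Commute.inv_inv_iff.mp this
  refine (QuotientGroup.eq_one_iff (N := N) _).mp ?_
  have h5 : QuotientGroup.mk' N ⁅C i (x j), C i (x k)⁆ = 1 := by
    rw [map_commutatorElement]; exact commutatorElement_eq_one_iff_commute.mpr h4
  exact h5

/-- the square of a partial conjugation -/
theorem sq_of {n : ℕ} (hn : 3 ≤ n) (N : Subgroup (MulAut (FreeGroup (Fin n)))) [hN : N.Normal]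
    {i j : Fin n} (hij : i ≠ j) {κ : MulAut (FreeGroup (Fin n))} (h1 : IsPartialConj i j κ)
    (h : κ ^ 2 ∈ N) : ∃ i j k : Fin n, i ≠ j ∧ i ≠ k ∧ j ≠ k ∧ C i ⁅x j, x k⁆ ∈ N := by
  obtain ⟨k, hk1, hk2⟩ := CSP4.third hn i j
  rw [isPartialConj_iff hij] at h1
  subst h1
  rw [inv_pow] at h
  exact ⟨i, j, k, hij, hk1.symm, hk2.symm,
    C_comm_mem_of_sq N hij hk1.symm hk2.symm (N.inv_mem_iff.mp h)⟩

/-- **Normal subgroups in which the `m`-th power of a transvection and a commutator of two partial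
conjugations with the same moved letter (or the square of a partial conjugation) are trivial have
finite index and the congruence property.** -/
theorem result (n : ℕ) (hn : 3 ≤ n) (m : ℕ) (hm : 1 ≤ m) :
    ∃ K : Subgroup (FreeGroup (Fin n)), K.Characteristic ∧ K.FiniteIndex ∧
      (2 ≤ m → ∀ p : ℕ, p.Prime → p ∣ K.index → p ∣ m) ∧
      ∀ N : Subgroup (MulAut (FreeGroup (Fin n))), N.Normal →
        (∀ g : FreeGroup (Fin n), MulAut.conj g ∈ N) → (∃ τ, IsTransvection τ ∧ τ ^ m ∈ N) →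
        (m ≤ 3 ∨ (∃ i j κ, i ≠ j ∧ IsPartialConj i j κ ∧ κ ^ 2 ∈ N) ∨
          ∃ i j k κ μ, i ≠ j ∧ i ≠ k ∧ j ≠ k ∧ IsPartialConj i j κ ∧ IsPartialConj i k μ ∧
            κ * μ * κ⁻¹ * μ⁻¹ ∈ N) →
        N.FiniteIndex ∧ congr K ⊆ N := by
  -- `m = 2`, `m = 3`
  have two' : ∀ N : Subgroup (MulAut (FreeGroup (Fin n))), N.Normal →
      (∀ g : FreeGroup (Fin n), MulAut.conj g ∈ N) → (∃ τ, IsTransvection τ ∧ τ ^ 2 ∈ N) →
      N.FiniteIndex ∧ congr (DD 2 n 3) ⊆ N := by
    intro N hN hI ⟨τ, hτ, hm⟩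
    have : NeZero 2 := ⟨by norm_num⟩
    have := hN
    have h1 : congr (DD 2 n 3) ⊆ N := by
      refine congr_subset _ inferInstance N hI fun ψ h => ?_
      refine Subgroup.normalClosure_le_normal ?_ (two hn h)
      rintro _ ⟨i, j, hij, rfl⟩
      exact pow_mem_of_pow_mem N hτ hm i j hij
    exact ⟨finiteIndex_of_congr _ inferInstance inferInstance N h1, h1⟩
  rcases (show m = 1 ∨ m = 2 ∨ m = 3 ∨ 4 ≤ m by omega) with rfl | rfl | rfl | hm4
  · refine ⟨DD 2 n 3, inferInstance, inferInstance, fun h => by omega, fun N hN hI hτ _ => ?_⟩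
    obtain ⟨τ, hτ, hm⟩ := hτ
    rw [pow_one] at hm
    exact two' N hN hI ⟨τ, hτ, N.pow_mem hm 2⟩
  · refine ⟨DD 2 n 3, inferInstance, inferInstance, fun _ p hp h => ?_,
      fun N hN hI hτ _ => two' N hN hI hτ⟩
    obtain ⟨e, he⟩ := index_DD (n := n) Nat.prime_two 3
    rw [he] at h
    exact hp.dvd_of_dvd_pow h
  · refine ⟨DD 3 n 6, inferInstance, inferInstance, fun _ p hp h => ?_,
      fun N hN hI hτ _ => ?_⟩
    · obtain ⟨e, he⟩ := index_DD (n := n) Nat.prime_three 6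
      rw [he] at h
      exact hp.dvd_of_dvd_pow h
    obtain ⟨τ, hτ, hm⟩ := hτ
    have := hN
    have h1 : congr (DD 3 n 6) ⊆ N := by
      refine congr_subset _ inferInstance N hI fun ψ h => ?_
      exact main_three' hn N (pow_mem_of_pow_mem N hτ hm) hI h
    exact ⟨finiteIndex_of_congr _ inferInstance inferInstance N h1, h1⟩
  · obtain ⟨K, hK, hf, hp, h⟩ := main_comm hn (m := m) (by omega)
    refine ⟨K, hK, hf, fun _ => hp, fun N hN hI hτ hc => ?_⟩
    obtain ⟨τ, hτ, hm'⟩ := hτ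
    have := hN
    have hc' : ∃ i j k : Fin n, i ≠ j ∧ i ≠ k ∧ j ≠ k ∧ C i ⁅x j, x k⁆ ∈ N := by
      rcases hc with hc | ⟨i, j, κ, hij, h1, h2⟩ | ⟨i, j, k, κ, μ, hij, hik, hjk, h1, h2, h3⟩
      · omega
      · exact sq_of hn N hij h1 h2
      · exact ⟨i, j, k, hij, hik, hjk, comm_of N hij hik h1 h2 h3⟩
    have h1 : congr K ⊆ N := congr_subset K hK N hI
      (h N hN (pow_mem_of_pow_mem N hτ hm') hc')
    exact ⟨finiteIndex_of_congr K hK hf N h1, h1⟩

end Pool.Agent.Results.MP_181555_al.CommutingConjugations
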