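import Mathlib

set_option autoImplicit false

namespace Pool.Agent.Results.MP_181555_al.FreeFactorCofinal

variable {n : ℕ}

/-- The automorphisms of the free group that act on `F / K` as an inner automorphism
(for a characteristic subgroup `K` this is the preimage in `Aut F` of the kernel of
`Out F → Out (F / K)`). -/
def congr (K : Subgroup (FreeGroup (Fin n))) : Set (MulAut (FreeGroup (Fin n))) :=
  {ψ | ∃ g : FreeGroup (Fin n), ∀ x : FreeGroup (Fin n), ψ x * (g * x * g⁻¹)⁻¹ ∈ K}

/-- `w` lies in a proper free factor: after an automorphism it lies in the subgroup generated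
by all basis elements except one. -/
def InProperFreeFactor (w : FreeGroup (Fin n)) : Prop :=
  ∃ (θ : MulAut (FreeGroup (Fin n))) (j : Fin n),
    θ w ∈ Subgroup.closure {x | ∃ i : Fin n, i ≠ j ∧ x = FreeGroup.of i}

section

variable (S : Type) [Group S]

/-- The automorphisms preserving the kernel of every homomorphism to `S`. -/
def kerStab (n : ℕ) : Subgroup (MulAut (FreeGroup (Fin n))) where
  carrier := {ψ | ∀ φ : FreeGroup (Fin n) →* S, ∀ x, φ (ψ x) = 1 ↔ φ x = 1}
  one_mem' := fun φ x => Iff.rfl
  mul_mem' := by
    intro a b ha hb φ x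
    rw [MulAut.mul_apply, ha φ (b x), hb φ x]
  inv_mem' := by
    intro a ha φ x
    rw [← ha φ (a⁻¹ x), MulAut.apply_inv_self]

theorem kerStab_normal : (kerStab S n).Normal := by
  constructor
  intro ψ hψ θ φ x
  rw [MulAut.mul_apply, MulAut.mul_apply]
  have h := hψ (φ.comp θ.toMonoidHom) (θ⁻¹ x)
  simp only [MonoidHom.comp_apply, MulEquiv.toMonoidHom_eq_coe, MonoidHom.coe_coe] at h
  rw [h, MulAut.apply_inv_self]

theorem kerStab_inner (g : FreeGroup (Fin n)) : MulAut.conj g ∈ kerStab S n := by
  intro φ x
  rw [MulAut.conj_apply, map_mul, map_mul, map_inv]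
  constructor
  · intro h
    have h2 : φ x = (φ g)⁻¹ * (φ g * φ x * (φ g)⁻¹) * φ g := by group
    rw [h2, h]; group
  · intro h
    rw [h]; group

theorem kerStab_finiteIndex [Finite S] : (kerStab S n).FiniteIndex := by
  classical
  haveI : Finite (FreeGroup (Fin n) →* S) :=
    Finite.of_equiv _ (FreeGroup.lift (α := Fin n) (β := S))
  -- the action on homomorphisms
  let act : MulAut (FreeGroup (Fin n)) →* Equiv.Perm (FreeGroup (Fin n) →* S) :=
    { toFun := fun ψ =>
        { toFun := fun φ => φ.comp (ψ⁻¹ : MulAut (FreeGroup (Fin n))).toMonoidHom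
          invFun := fun φ => φ.comp ψ.toMonoidHom
          left_inv := by
            intro φ; ext i; simp
          right_inv := by
            intro φ; ext i; simp }
      map_one' := by
        ext φ i; simp
      map_mul' := by
        intro a b
        ext φ i; simp }
  haveI : Finite (Equiv.Perm (FreeGroup (Fin n) →* S)) := inferInstance
  haveI hfi : act.ker.FiniteIndex := inferInstance
  refine Subgroup.finiteIndex_of_le (H := act.ker) ?_
  intro ψ hψ φ x
  have h1 : act ψ⁻¹ = 1 := by
    rw [map_inv, MonoidHom.mem_ker.mp hψ, inv_one]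
  have h2 := congrArg (fun e : Equiv.Perm (FreeGroup (Fin n) →* S) => e φ x) h1
  have h3 : φ (ψ x) = φ x := by
    simpa [act] using h2
  rw [h3]

end

section

variable (j : Fin n)

/-- The subgroup generated by all basis elements except the `j`-th one. -/
def others : Subgroup (FreeGroup (Fin n)) :=
  Subgroup.closure {x | ∃ i : Fin n, i ≠ j ∧ x = FreeGroup.of i}

/-- The endomorphism `x_j ↦ x_j u`. -/
def transHom (u : FreeGroup (Fin n)) : FreeGroup (Fin n) →* FreeGroup (Fin n) :=
  FreeGroup.lift fun i => if i = j then FreeGroup.of j * u else FreeGroup.of i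

theorem transHom_j (u : FreeGroup (Fin n)) :
    transHom j u (FreeGroup.of j) = FreeGroup.of j * u := by
  simp [transHom]

theorem transHom_ne (u : FreeGroup (Fin n)) {i : Fin n} (h : i ≠ j) :
    transHom j u (FreeGroup.of i) = FreeGroup.of i := by
  simp [transHom, h]

theorem eq_of_others {H : Type*} [Group H] (f g : FreeGroup (Fin n) →* H)
    (h : ∀ i, i ≠ j → f (FreeGroup.of i) = g (FreeGroup.of i)) {v : FreeGroup (Fin n)}
    (hv : v ∈ others j) : f v = g v := by
  refine MonoidHom.eqOn_closure (s := {x | ∃ i : Fin n, i ≠ j ∧ x = FreeGroup.of i}) ?_ hv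
  rintro x ⟨i, hi, rfl⟩
  exact h i hi

theorem transHom_others (u : FreeGroup (Fin n)) {v : FreeGroup (Fin n)} (hv : v ∈ others j) :
    transHom j u v = v :=
  eq_of_others j (transHom j u) (MonoidHom.id _) (fun _ hi => transHom_ne j u hi) hv

theorem transHom_inv (u : FreeGroup (Fin n)) (hu : u ∈ others j) (x : FreeGroup (Fin n)) :
    transHom j u⁻¹ (transHom j u x) = x := by
  have h : (transHom j u⁻¹).comp (transHom j u) = MonoidHom.id _ := by
    ext i
    rw [MonoidHom.comp_apply, MonoidHom.id_apply]
    by_cases hi : i = j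
    · subst hi
      rw [transHom_j, map_mul, transHom_j, transHom_others i _ hu]
      group
    · rw [transHom_ne j u hi, transHom_ne j _ hi]
  exact DFunLike.congr_fun h x

/-- The automorphism `x_j ↦ x_j u` for `u` not involving `x_j`. -/
def trans (u : FreeGroup (Fin n)) (hu : u ∈ others j) : MulAut (FreeGroup (Fin n)) where
  toFun := transHom j u
  invFun := transHom j u⁻¹
  left_inv := transHom_inv j u hu
  right_inv := by
    intro x
    have := transHom_inv j u⁻¹ (inv_mem hu) x
    rwa [inv_inv] at this
  map_mul' := map_mul _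

theorem trans_congr (K : Subgroup (FreeGroup (Fin n))) [K.Normal] (u : FreeGroup (Fin n))
    (hu : u ∈ others j) (hK : u ∈ K) : trans j u hu ∈ congr K := by
  refine ⟨1, fun x => ?_⟩
  have h : (QuotientGroup.mk' K).comp (transHom j u) = QuotientGroup.mk' K := by
    ext i
    rw [MonoidHom.comp_apply]
    by_cases hi : i = j
    · subst hi
      rw [transHom_j, map_mul]
      have : QuotientGroup.mk' K u = 1 := by
        rw [QuotientGroup.mk'_apply, QuotientGroup.eq_one_iff]; exact hK
      rw [this, mul_one]
    · rw [transHom_ne j u hi]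
  have h2 : QuotientGroup.mk' K (transHom j u x) = QuotientGroup.mk' K x :=
    DFunLike.congr_fun h x
  have h3 : QuotientGroup.mk' K (transHom j u x * (1 * x * 1⁻¹)⁻¹) = 1 := by
    rw [map_mul, h2]
    simp
  rw [QuotientGroup.mk'_apply, QuotientGroup.eq_one_iff] at h3
  exact h3

/-- Key step: if the automorphisms trivial on `F / K` preserve all kernels of homomorphisms to
`S`, then the elements of `K` not involving `x_j` are killed by all homomorphisms to `S`. -/
theorem key (S : Type) [Group S] (K : Subgroup (FreeGroup (Fin n))) [K.Normal]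
    (hK : congr K ⊆ (kerStab S n : Set (MulAut (FreeGroup (Fin n))))) (u : FreeGroup (Fin n))
    (hu : u ∈ others j) (huK : u ∈ K) (φ : FreeGroup (Fin n) →* S) : φ u = 1 := by
  let φ' : FreeGroup (Fin n) →* S :=
    FreeGroup.lift fun i => if i = j then 1 else φ (FreeGroup.of i)
  have h1 : φ' (FreeGroup.of j) = 1 := by simp [φ']
  have h2 : φ' u = φ u := by
    refine eq_of_others j φ' φ (fun i hi => ?_) hu
    simp [φ', hi]
  have h3 := hK (trans_congr j K u hu huK) φ' (FreeGroup.of j)
  have h4 : φ' (transHom j u (FreeGroup.of j)) = 1 := h3.mpr h1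
  rw [transHom_j, map_mul, h1, one_mul, h2] at h4
  exact h4

end

/-- For every finite index subgroup `M` of the free group there is a finite quotient of
`Out F` such that every characteristic subgroup `K` detecting it satisfies: every element of
`K` lying in a proper free factor belongs to `M`. -/
theorem result (n : ℕ) (M : Subgroup (FreeGroup (Fin n))) (hM : M.FiniteIndex) :
    ∃ N : Subgroup (MulAut (FreeGroup (Fin n))),
      N.Normal ∧ N.FiniteIndex ∧ (∀ g : FreeGroup (Fin n), MulAut.conj g ∈ N) ∧
      ∀ K : Subgroup (FreeGroup (Fin n)), K.Characteristic → congr K ⊆ N →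
        ∀ w ∈ K, InProperFreeFactor w → w ∈ M := by
  haveI := hM
  let S := FreeGroup (Fin n) ⧸ M.normalCore
  haveI : Finite S := inferInstance
  refine ⟨kerStab S n, kerStab_normal S, kerStab_finiteIndex S, kerStab_inner S, ?_⟩
  intro K hK hsub w hw hfree
  obtain ⟨θ, j, hθ⟩ := hfree
  haveI := hK
  haveI : K.Normal := Subgroup.normal_of_characteristic K
  have h1 : θ w ∈ K := by
    have := (Subgroup.characteristic_iff_map_eq.mp hK) θ
    rw [← this]
    exact Subgroup.mem_map_of_mem _ hw
  have h2 := key j S K hsub (θ w) hθ h1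
    ((QuotientGroup.mk' M.normalCore).comp (θ⁻¹ : MulAut (FreeGroup (Fin n))).toMonoidHom)
  have e1 : ((QuotientGroup.mk' M.normalCore).comp
      (θ⁻¹ : MulAut (FreeGroup (Fin n))).toMonoidHom) (θ w) =
        (QuotientGroup.mk' M.normalCore) w := by
    rw [MonoidHom.comp_apply]
    congr 1
    exact MulAut.inv_apply_self _ _ _
  rw [e1, QuotientGroup.mk'_apply, QuotientGroup.eq_one_iff] at h2
  exact M.normalCore_le h2

end Pool.Agent.Results.MP_181555_al.FreeFactorCofinal
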