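import Mathlib
import Pool.Agent.Results.MP_181555_al.StabilizerCongruence

set_option autoImplicit false

/-!
# The congruence subgroup property of `Out F_n` and the overgroups of a stabilizer

All finite quotients of `Out F_n` are congruence quotients if and only if, for a fixed group `P` of
the family `Stabilizer`, the maximal subgroups of congruence subgroups that contain `P` and have
finite index are congruence subgroups.
-/

namespace Pool.Agent.Results.MP_181555_al.ParabolicOvergroups

open Pool.Agent.CSPHier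
open Pool.Agent.Results.MP_181555_al.StabilizerCongruence (Stabilizer congr)

variable {n : ℕ}

/-- Congruence subgroups: `H` contains, for some characteristic subgroup `K` of finite index in
`F_n`, every automorphism of `F_n` that acts on `F_n / K` as an inner automorphism. -/
def IsCongruence (H : Subgroup (MulAut (FreeGroup (Fin n)))) : Prop :=
  ∃ K : Subgroup (FreeGroup (Fin n)), K.Characteristic ∧ K.FiniteIndex ∧
    congr K ⊆ (H : Set (MulAut (FreeGroup (Fin n))))

theorem IsCongruence.mono {H H' : Subgroup (MulAut (FreeGroup (Fin n)))} (h : H ≤ H')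
    (hH : IsCongruence H) : IsCongruence H' := by
  obtain ⟨K, h1, h2, h3⟩ := hH
  exact ⟨K, h1, h2, fun ψ hψ => h (h3 hψ)⟩

theorem mem_congr {K : Subgroup (FreeGroup (Fin n))} [K.Normal]
    {ψ : MulAut (FreeGroup (Fin n))} :
    ψ ∈ congr K ↔ ∃ g : FreeGroup (Fin n), ∀ x : FreeGroup (Fin n),
      ((ψ x : FreeGroup (Fin n)) : FreeGroup (Fin n) ⧸ K) =
        (g : FreeGroup (Fin n) ⧸ K) * (x : FreeGroup (Fin n) ⧸ K) *
          (g : FreeGroup (Fin n) ⧸ K)⁻¹ := by
  refine exists_congr fun g => forall_congr' fun x => ?_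
  rw [← QuotientGroup.eq_one_iff, QuotientGroup.mk_mul, QuotientGroup.mk_inv, mul_inv_eq_one,
    QuotientGroup.mk_mul, QuotientGroup.mk_mul, QuotientGroup.mk_inv]

theorem apply_mem {K : Subgroup (FreeGroup (Fin n))} (hK : K.Characteristic)
    (ψ : MulAut (FreeGroup (Fin n))) {x : FreeGroup (Fin n)} (hx : x ∈ K) : ψ x ∈ K := by
  have := Subgroup.characteristic_iff_map_eq.mp hK ψ
  rw [← this]
  exact Subgroup.mem_map_of_mem _ hx

/-- Automorphisms respect congruence modulo a characteristic subgroup. -/
theorem mk_apply {K : Subgroup (FreeGroup (Fin n))} [K.Normal] (hK : K.Characteristic)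
    (ψ : MulAut (FreeGroup (Fin n))) {x y : FreeGroup (Fin n)}
    (h : (x : FreeGroup (Fin n) ⧸ K) = (y : FreeGroup (Fin n) ⧸ K)) :
    ((ψ x : FreeGroup (Fin n)) : FreeGroup (Fin n) ⧸ K) =
      ((ψ y : FreeGroup (Fin n)) : FreeGroup (Fin n) ⧸ K) := by
  rw [QuotientGroup.eq] at h ⊢
  rw [← map_inv, ← map_mul]
  exact apply_mem hK ψ h

/-- The automorphisms acting on `F / K` as inner automorphisms, as a subgroup. -/
def congrSub (K : Subgroup (FreeGroup (Fin n))) (hK : K.Characteristic) :
    Subgroup (MulAut (FreeGroup (Fin n))) where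
  carrier := congr K
  one_mem' := ⟨1, fun x => by simp⟩
  mul_mem' := by
    have : K.Normal := Subgroup.normal_of_characteristic K
    intro a b ha hb
    rw [mem_congr] at ha hb ⊢
    obtain ⟨g, hg⟩ := ha
    obtain ⟨h, hh⟩ := hb
    refine ⟨g * h, fun x => ?_⟩
    have h1 : ((b x : FreeGroup (Fin n)) : FreeGroup (Fin n) ⧸ K) =
        ((h * x * h⁻¹ : FreeGroup (Fin n)) : FreeGroup (Fin n) ⧸ K) := by
      rw [hh x]; simp
    rw [MulAut.mul_apply, mk_apply hK a h1, hg]
    simp [mul_assoc]
  inv_mem' := by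
    have : K.Normal := Subgroup.normal_of_characteristic K
    intro a ha
    rw [mem_congr] at ha ⊢
    obtain ⟨g, hg⟩ := ha
    refine ⟨g⁻¹, fun x => ?_⟩
    have h1 := hg (a⁻¹ x)
    rw [MulAut.apply_inv_self] at h1
    rw [h1]
    simp [mul_assoc]

theorem mem_congrSub {K : Subgroup (FreeGroup (Fin n))} {hK : K.Characteristic}
    {ψ : MulAut (FreeGroup (Fin n))} : ψ ∈ congrSub K hK ↔ ψ ∈ congr K := Iff.rfl

theorem congrSub_normal (K : Subgroup (FreeGroup (Fin n))) (hK : K.Characteristic) :
    (congrSub K hK).Normal := by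
  have : K.Normal := Subgroup.normal_of_characteristic K
  constructor
  intro a ha θ
  rw [mem_congrSub, mem_congr] at ha ⊢
  obtain ⟨g, hg⟩ := ha
  refine ⟨θ g, fun x => ?_⟩
  have h1 : ((a (θ⁻¹ x) : FreeGroup (Fin n)) : FreeGroup (Fin n) ⧸ K) =
      ((g * θ⁻¹ x * g⁻¹ : FreeGroup (Fin n)) : FreeGroup (Fin n) ⧸ K) := by
    rw [hg]; simp
  rw [MulAut.mul_apply, MulAut.mul_apply, mk_apply hK θ h1, map_mul, map_mul, map_inv,
    MulAut.apply_inv_self]
  simp

theorem congrSub_finiteIndex (K : Subgroup (FreeGroup (Fin n))) (hK : K.Characteristic)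
    (hf : K.FiniteIndex) : (congrSub K hK).FiniteIndex := by
  obtain ⟨m, hm⟩ := exists_L_le K hf
  refine Subgroup.finiteIndex_of_le (H := cong (FreeGroup (Fin n)) m) ?_
  intro ψ hψ
  refine ⟨1, fun x => ?_⟩
  have := hm (mem_cong.mp hψ x)
  simpa using this

theorem conj_mem_congrSub (K : Subgroup (FreeGroup (Fin n))) (hK : K.Characteristic)
    (g : FreeGroup (Fin n)) : MulAut.conj g ∈ congrSub K hK :=
  ⟨g, fun x => by rw [MulAut.conj_apply, mul_inv_cancel]; exact one_mem _⟩

theorem congr_mono {K K' : Subgroup (FreeGroup (Fin n))} (h : K ≤ K') : congr K ⊆ congr K' := by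
  rintro ψ ⟨g, hg⟩
  exact ⟨g, fun x => h (hg x)⟩

theorem isCongruence_top : IsCongruence (⊤ : Subgroup (MulAut (FreeGroup (Fin n)))) :=
  ⟨⊤, Subgroup.topCharacteristic, inferInstance, fun _ _ => trivial⟩

/-- A subgroup of finite index different from the whole group is a maximal subgroup of some
larger subgroup. -/
theorem exists_covBy {G : Type*} [Group G] {H : Subgroup G} (hf : H.FiniteIndex) (hH : H ≠ ⊤) :
    ∃ U : Subgroup G, H ⋖ U := by
  have h1 : ∃ k : ℕ, ∃ U : Subgroup G, H < U ∧ H.relIndex U = k :=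
    ⟨_, ⊤, lt_top_iff_ne_top.mpr hH, rfl⟩
  classical
  obtain ⟨U, hU, hk⟩ := Nat.find_spec h1
  refine ⟨U, hU, fun V hHV hVU => ?_⟩
  have h2 : H.relIndex V * V.relIndex U = H.relIndex U :=
    Subgroup.relIndex_mul_relIndex H V U hHV.le hVU.le
  have h3 : Nat.find h1 ≤ H.relIndex V := Nat.find_min' h1 ⟨V, hHV, rfl⟩
  have h4 : H.relIndex U ≠ 0 := by
    have := hf.index_ne_zero
    rw [← Subgroup.relIndex_mul_index hU.le] at this
    exact left_ne_zero_of_mul this
  have h5 : V.relIndex U ≠ 1 := by
    rw [Ne, Subgroup.relIndex_eq_one]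
    exact fun h => absurd hVU (not_lt_of_ge h)
  have h6 : V.relIndex U ≠ 0 := by
    intro h
    rw [h, mul_zero] at h2
    exact h4 h2.symm
  have h7 : 0 < H.relIndex V := Nat.pos_of_ne_zero fun h => by
    rw [h, zero_mul] at h2
    exact h4 h2.symm
  rw [← hk] at h3
  have h8 : 2 ≤ V.relIndex U := by omega
  nlinarith

/-- Every subgroup of finite index containing `P` is a congruence subgroup, if this is so for the
maximal subgroups of congruence subgroups. -/
theorem overgroups (P : Subgroup (MulAut (FreeGroup (Fin n))))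
    (h : ∀ H U : Subgroup (MulAut (FreeGroup (Fin n))), H.FiniteIndex → P ≤ H → H ⋖ U →
      IsCongruence U → IsCongruence H) :
    ∀ k : ℕ, ∀ H : Subgroup (MulAut (FreeGroup (Fin n))), H.FiniteIndex → P ≤ H →
      H.index ≤ k → IsCongruence H := by
  intro k
  induction k with
  | zero =>
    intro H hf _ hk
    exact absurd (Nat.le_zero.mp hk) hf.index_ne_zero
  | succ k ih =>
    intro H hf hPH hk
    by_cases hH : H = ⊤
    · rw [hH]; exact isCongruence_top
    · obtain ⟨U, hU⟩ := exists_covBy hf hH
      have hUf : U.FiniteIndex := Subgroup.finiteIndex_of_le hU.le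
      refine h H U hf hPH hU (ih U hUf (hPH.trans hU.le) ?_)
      have h1 : H.relIndex U * U.index = H.index := Subgroup.relIndex_mul_index hU.le
      have h2 : H.relIndex U ≠ 1 := by
        rw [Ne, Subgroup.relIndex_eq_one]
        exact fun h => absurd hU.lt (not_lt_of_ge h)
      have h3 : H.relIndex U ≠ 0 := by
        intro h3
        rw [h3, zero_mul] at h1
        exact hf.index_ne_zero h1.symm
      have h4 : 0 < U.index := Nat.pos_of_ne_zero hUf.index_ne_zero
      have h5 : 2 ≤ H.relIndex U := by omega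
      nlinarith

/-- **Overgroups.** Let `P` be a group of the family `Stabilizer` of automorphism groups of `F_n`.
Then the question has a positive answer for `F_n` (every normal subgroup `N` of finite index of
`Aut F_n` containing the inner automorphisms is a congruence subgroup) if and only if, for every
congruence subgroup `U` of `Aut F_n`, every maximal subgroup `H` of `U` that contains `P` and has
finite index is a congruence subgroup. -/
theorem result (n : ℕ) (P : Subgroup (MulAut (FreeGroup (Fin n)))) (hP : Stabilizer (Fin n) P) :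
    (∀ N : Subgroup (MulAut (FreeGroup (Fin n))), N.Normal → N.FiniteIndex →
        (∀ g : FreeGroup (Fin n), MulAut.conj g ∈ N) → IsCongruence N) ↔
      (∀ H U : Subgroup (MulAut (FreeGroup (Fin n))), H.FiniteIndex → P ≤ H → H ⋖ U →
        IsCongruence U → IsCongruence H) := by
  constructor
  · intro h H _ hf hPH _ _
    refine IsCongruence.mono H.normalCore_le (h H.normalCore inferInstance inferInstance ?_)
    intro g θ
    have h1 : θ * MulAut.conj g * θ⁻¹ = MulAut.conj (θ g) := by
      ext1 x
      rw [MulAut.mul_apply, MulAut.mul_apply, MulAut.conj_apply, MulAut.conj_apply, map_mul,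
        map_mul, map_inv, MulAut.apply_inv_self]
    rw [h1]
    exact hPH (StabilizerCongruence.conj_mem hP _)
  · intro h N hN hf hinn
    -- the congruence property of `P`
    obtain ⟨K₁, hK₁, hfK₁, hPK⟩ := StabilizerCongruence.general n P N hP inferInstance hinn
    have hn₁ := congrSub_normal K₁ hK₁
    have hf₁ := congrSub_finiteIndex K₁ hK₁ hfK₁
    -- the overgroup `P M`
    obtain ⟨M, hM⟩ : ∃ M : Subgroup (MulAut (FreeGroup (Fin n))),
      M = N ⊓ congrSub K₁ hK₁ := ⟨_, rfl⟩
    have hMn : M.Normal := by rw [hM]; infer_instance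
    have hMf : M.FiniteIndex := by rw [hM]; infer_instance
    obtain ⟨K₂, hK₂, hfK₂, hsub⟩ := overgroups P h _ (P ⊔ M)
      (Subgroup.finiteIndex_of_le (le_sup_right : M ≤ P ⊔ M)) le_sup_left le_rfl
    refine ⟨K₁ ⊓ K₂, inferInstance, inferInstance, ?_⟩
    intro ψ hψ
    have hψ1 : ψ ∈ congrSub K₁ hK₁ := congr_mono inf_le_left hψ
    have hψ2 : ψ ∈ P ⊔ M := hsub (congr_mono inf_le_right hψ)
    obtain ⟨p, hp, ν, hν, rfl⟩ := Subgroup.mem_sup_of_normal_right.mp hψ2
    rw [hM] at hν
    have hp1 : p ∈ congrSub K₁ hK₁ := by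
      have := mul_mem hψ1 (inv_mem hν.2)
      rwa [mul_inv_cancel_right] at this
    exact mul_mem (hPK p hp hp1) hν.1

end Pool.Agent.Results.MP_181555_al.ParabolicOvergroups
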